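import Pool.Agent.W994.ST.Stm

/-!
# Reachability in directed trees: definitions and statements
-/

set_option autoImplicit false

namespace Pool.Agent.W994.TR

open Finset
open Pool.Agent.W997.TS (DBP)
open Pool.Agent.H554R2.Thrifty (BP)
open Pool.Agent.W994.ST (Input Reach nReach ann touch held stp run trc Nd Hb nd nn sd entry sb pn FT)

/-- A pointer of a vertex to itself counts as absent.  The vertices which can be reached from `s`
form a directed tree with the root `s`: each of them is the target of at most one (not absent)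
pointer of a reachable vertex, and `s` is not the target of such a pointer. -/
def TreeFrom {k : ℕ} (x : Input k) (s : Fin k) : Prop :=
  (∀ v v' : Fin k × Bool, Reach x s v.1 → Reach x s v'.1 → x v = x v' → x v ≠ v.1 →
    x v' ≠ v'.1 → v = v') ∧
  ∀ v : Fin k × Bool, Reach x s v.1 → x v = s → v.1 = s

/-- Where the exit of the sub-gadget `(i, e, c)` leads to: a path node, or the exit (`inr true`),
or nothing (`inr false`); only the sub-gadgets of the live side `e = sd ω i` lead anywhere. -/
def nx {r : ℕ} (ω : Fin (r + 1) → Bool) (i : Fin (r + 1)) (e c : Bool) :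
    (Fin (r + 1) × Bool) ⊕ Bool :=
  if e = sd ω i then
    if h : i.val + 1 < r + 1 then Sum.inl (⟨i.val + 1, h⟩, c) else Sum.inr (c == ω i)
  else Sum.inr false

/-- The two pointers of a node: another node, or the exit (`inr true`), or nothing
(`inr false`). -/
def sc (r : ℕ) : (d : ℕ) → Hb r d → Nd r d → Bool → Nd r d ⊕ Bool
  | 0, _, _, c => Sum.inr (!c)
  | d + 1, _, (p, none), c => Sum.inl (p, some (c, entry r d))
  | d + 1, h, ((i, e), some (c', u)), c =>
    match sc r d (h.2 (i, e, c')) u c with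
    | Sum.inl u' => Sum.inl ((i, e), some (c', u'))
    | Sum.inr false => Sum.inr false
    | Sum.inr true =>
      match nx h.1 i e c' with
      | Sum.inl p => Sum.inl (p, none)
      | Sum.inr b => Sum.inr b

/-- The target of a pointer of the vertex `v`, for an embedding `ι` of the nodes and the target
`o` of the exit; absent pointers are loops (`o = none`: the exit is absent, too). -/
def tg {𝒱 N : Type} (ι : N → 𝒱) (o : Option 𝒱) (v : 𝒱) : N ⊕ Bool → 𝒱
  | Sum.inl u => ι u
  | Sum.inr true => o.getD v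
  | Sum.inr false => v

/-- A family of worlds in which the gadget of level `d` is embedded by `ι`; `o` is the target of
the exit. -/
structure Fam {𝒱 : Type} {r d : ℕ} (W : Hb r d → 𝒱 × Bool → 𝒱) (ι : Nd r d → 𝒱)
    (o : Option 𝒱) : Prop where
  inj : Function.Injective ι
  ans : ∀ h u c, W h (ι u, c) = tg ι o (ι u) (sc r d h u c)
  off : ∀ h h' v, (∀ u, v.1 ≠ ι u) → W h v = W h' v
  out : ∀ h v u, (∀ u', v.1 ≠ ι u') → W h v = ι u → u = entry r d
  he : ∀ u, o ≠ some (ι u)

/-- The query of time `t` is at the exit of the embedded gadget. -/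
def exitAt {𝒱 : Type} {r d : ℕ} (ι : Nd r d → 𝒱) (h : Hb r d) (q : ℕ → Option (𝒱 × Bool))
    (t : ℕ) : Prop := ∃ u c, q t = some (ι u, c) ∧ sc r d h u c = Sum.inr true

/-- The exit of the embedded gadget of level `d` is read although, from a time at which no node
is held, never more than `d` nodes have been held. -/
def Viol {𝒱 : Type} {r d : ℕ} (w : 𝒱 × Bool → 𝒱) (ι : Nd r d → 𝒱) (h : Hb r d)
    (q : ℕ → Option (𝒱 × Bool)) : Prop :=
  ∃ t1 t2, t1 ≤ t2 ∧ (∀ u, ¬ held w q t1 (ι u)) ∧
    (∀ t, t1 ≤ t → t ≤ t2 → ∀ s : Finset (Nd r d), (∀ u ∈ s, held w q t (ι u)) → s.card ≤ d) ∧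
    exitAt ι h q t2

/-- The world: the graph belonging to the hidden bits `h` and the names `a`; the exit leads to `t`
if `z = true` and is absent otherwise. -/
noncomputable def wld {k κ r D : ℕ} (nm : Nd r D × Fin κ → Fin k) (s t : Fin k) (z : Bool)
    (h : Hb r D) (a : Nd r D → Fin κ) (v : Fin k × Bool) : Fin k :=
  open Classical in
  if v.1 = s then (if v.2 then s else nm (entry r D, a (entry r D)))
  else if H : ∃ u, nm (u, a u) = v.1 then
    tg (fun u => nm (u, a u)) (if z then some t else none) v.1 (sc r D h H.choose v.2)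
  else v.1

/-! ### The parts -/

/-- (NBP) The nondeterministic program, unambiguous on trees. -/
def NBPProp : Prop := ∀ (k : ℕ) (s t : Fin k), ∃ P : BP (Fin k × Bool) k, P.size = 2 * k + 3 ∧
  ∀ x : Input k, (Reach x s t ↔ ∃ l, P.IsComp x l true) ∧
    (Reach x s t → ∃ l, P.IsComp x l true ∧ l.length ≤ nReach x s) ∧
    (TreeFrom x s → ∀ l l', P.IsComp x l true → P.IsComp x l' true → l = l')

open Classical in
/-- (UP) The deterministic program for trees. -/
def UpProp : Prop := ∃ C : ℝ, 0 < C ∧ ∃ k₀ : ℕ, ∀ k : ℕ, k₀ ≤ k → ∀ s t : Fin k,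
  ∃ P : DBP (Fin k × Bool) k,
    Real.logb 2 P.size ≤ C * Real.logb 2 k ^ 2 / Real.logb 2 (Real.logb 2 k) ∧
    ∀ x : Input k, TreeFrom x s →
      ∃ τ m, m ≤ 2 * nReach x s ∧ P.Run x τ m (decide (Reach x s t))

/-- (INST) The properties of the worlds. -/
def InstProp : Prop := ∀ (k κ r D : ℕ) (nm : Nd r D × Fin κ → Fin k) (s t : Fin k),
  Function.Injective nm → (∀ v, nm v ≠ s) → (∀ v, nm v ≠ t) → s ≠ t →
  (∀ z h a, nReach (wld nm s t z h a) s ≤ nd r D + 2) ∧
  (∀ h a, Reach (wld nm s t true h a) s t) ∧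
  (∀ h a, ¬ Reach (wld nm s t false h a) s t) ∧
  (∀ h a v, (∀ u c, v = (nm (u, a u), c) → sc r D h u c ≠ Sum.inr true) →
    wld nm s t true h a v = wld nm s t false h a v) ∧
  (∀ z a, Fam (fun h => wld nm s t z h a) (fun u => nm (u, a u)) (if z then some t else none)) ∧
  (∀ z h a a' v, (∀ u, a u ≠ a' u → v.1 ≠ nm (u, a u) ∧ v.1 ≠ nm (u, a' u)) →
    (∀ u, a u ≠ a' u → wld nm s t z h a v ≠ nm (u, a u)) →
    wld nm s t z h a v = wld nm s t z h a' v) ∧
  (∀ z h a, TreeFrom (wld nm s t z h a) s)

end Pool.Agent.W994.TR
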