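import Pool.Agent.W994.TR.Final
import Pool.Agent.W565.TR.Nbp
import Pool.Agent.W565.TR.Inst
import Pool.Agent.W565.ST.Asym
import Pool.Agent.W565.ST.Sav

/-!
# Everything but the upper bound for trees
-/

set_option autoImplicit false

namespace Pool.Agent.W994.TR

open Finset
open Pool.Agent.W997.TS (DBP)
open Pool.Agent.H554R2.Thrifty (BP)
open Pool.Agent.W994.ST (Input Reach nReach)

open Classical in
theorem lower_all : ∀ θ δ : ℝ, θ < 1 → 0 < δ → ∃ c : ℝ, 0 < c ∧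
    ∃ k₀ : ℕ, ∀ k : ℕ, k₀ ≤ k → ∀ s t : Fin k, s ≠ t →
      ∃ (N : ℕ) (X : Fin N → Input k), 0 < N ∧
      (∀ i, TreeFrom (X i) s ∧ (nReach (X i) s : ℝ) ≤ (k : ℝ) ^ δ) ∧
      ∀ (P : DBP (Fin k × Bool) k) (ρ : Fin N → ℕ),
        (∀ i τ m b, P.Run (X i) τ m b → m ≤ ρ i) →
        (∑ i, (ρ i : ℝ)) ≤ (k : ℝ) ^ θ * N →
        Real.logb 2 P.size < c * Real.logb 2 k ^ 2 / Real.logb 2 (Real.logb 2 k) →
        ((univ.filter fun i => ∃ τ m, P.Run (X i) τ m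
          (decide (Reach (X i) s t))).card : ℝ) ≤ (1 / 2 + (k : ℝ) ^ (-c)) * N :=
  lower Pool.Agent.W565.ST.Asym.main Pool.Agent.W565.TR.Inst.main

end Pool.Agent.W994.TR
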