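import Pool.Agent.W994.TR.Comb
import Pool.Agent.W994.ST.Count

/-!
# Counting the hidden bits (trees)
-/

set_option autoImplicit false

namespace Pool.Agent.W994.TR

open Finset
open Pool.Agent.W994.ST (ann touch held stp run trc Nd Hb nd nn sd entry sb pn held_of_touch
  ann_of_held enter sb_inj pn_ne_sb pn_inj nd_cases upd_count pair_count pair_count' run_zero
  run_succ run_add)

variable {𝒱 : Type}

/-- The sub-family: all hidden bits but those of one sub-gadget are fixed. -/
theorem Fam.sub {r d : ℕ} {W : Hb r (d + 1) → 𝒱 × Bool → 𝒱} {ι : Nd r (d + 1) → 𝒱}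
    {o : Option 𝒱} (F : Fam W ι o) (ω : Fin (r + 1) → Bool)
    (η : Fin (r + 1) × Bool × Bool → Hb r d) (i : Fin (r + 1)) (e c : Bool) :
    ∃ o', Fam (fun h' => W (ω, Function.update η (i, e, c) h')) (fun u => ι (sb i e c u)) o' := by
  have hans : ∀ (h' : Hb r d) (u : Nd r d) (c' : Bool),
      (∀ u'', sc r d h' u c' = Sum.inl u'' →
        W (ω, Function.update η (i, e, c) h') (ι (sb i e c u), c') = ι (sb i e c u'')) ∧
      (sc r d h' u c' = Sum.inr false →
        W (ω, Function.update η (i, e, c) h') (ι (sb i e c u), c') = ι (sb i e c u)) ∧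
      (sc r d h' u c' = Sum.inr true →
        W (ω, Function.update η (i, e, c) h') (ι (sb i e c u), c') =
          tg ι o (ι (sb i e c u)) (xt d ω i e c)) := by
    intro h' u c'
    have h0 : (Function.update η (i, e, c) h') (i, e, c) = h' := Function.update_self ..
    have h1 : ∀ y, sc r d h' u c' = y →
        sc r d (((ω, Function.update η (i, e, c) h') : Hb r (d + 1)).2 (i, e, c)) u c' = y := by
      intro y hy
      rw [← hy]
      exact congrArg (fun z => sc r d z u c') h0
    refine ⟨fun u'' hs => ?_, fun hs => ?_, fun hs => ?_⟩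
    · rw [F.ans, sc_sb_inl (h1 _ hs)]; rfl
    · rw [F.ans, sc_sb_false (h1 _ hs)]; rfl
    · rw [F.ans, sc_sb_true (h1 _ hs)]
  have hoff : ∀ (h h' : Hb r d) (v : 𝒱 × Bool), (∀ u, v.1 ≠ ι (sb i e c u)) →
      W (ω, Function.update η (i, e, c) h) v = W (ω, Function.update η (i, e, c) h') v := by
    intro h h' v hv
    by_cases hr : ∃ z, v.1 = ι z
    · obtain ⟨z, hz⟩ := hr
      have hv' : v = (ι z, v.2) := Prod.ext hz rfl
      rw [hv', F.ans, F.ans]
      rcases nd_cases z with ⟨i', e', rfl⟩ | ⟨i', e', c', u', rfl⟩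
      · rfl
      · have hne : (i', e', c') ≠ (i, e, c) := by
          intro h3
          rw [Prod.mk.injEq, Prod.mk.injEq] at h3
          exact hv u' (by rw [hz, h3.1, h3.2.1, h3.2.2])
        have h4 : ∀ g : Hb r d, ((ω, Function.update η (i, e, c) g) : Hb r (d + 1)).2 (i', e', c') =
            η (i', e', c') := fun g => Function.update_of_ne hne _ _
        rcases hs : sc r d (η (i', e', c')) u' v.2 with u'' | b
        · rw [sc_sb_inl ((congrArg (fun z => sc r d z u' v.2) (h4 h)).trans hs),
            sc_sb_inl ((congrArg (fun z => sc r d z u' v.2) (h4 h')).trans hs)]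
        · rcases b with _ | _
          · rw [sc_sb_false ((congrArg (fun z => sc r d z u' v.2) (h4 h)).trans hs),
              sc_sb_false ((congrArg (fun z => sc r d z u' v.2) (h4 h')).trans hs)]
          · rw [sc_sb_true ((congrArg (fun z => sc r d z u' v.2) (h4 h)).trans hs),
              sc_sb_true ((congrArg (fun z => sc r d z u' v.2) (h4 h')).trans hs)]
    · push Not at hr
      exact F.off _ _ v hr
  have hinj : Function.Injective fun u : Nd r d => ι (sb i e c u) := by
    intro u u' h
    exact (sb_inj (F.inj h)).2.2.2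
  have hout : ∀ (h' : Hb r d) (v : 𝒱 × Bool) (u : Nd r d), (∀ u', v.1 ≠ ι (sb i e c u')) →
      W (ω, Function.update η (i, e, c) h') v = ι (sb i e c u) → u = entry r d := by
    intro h' v u hv hw
    exact ((F.env (ω, Function.update η (i, e, c) h')).out_sb hv hw).2.2
  -- the target of the exit
  rcases xt_cases (d := d) ω i e c with ⟨i', e', h1, -⟩ | ⟨b, h1, -⟩
  · refine ⟨some (ι (pn d i' e')), hinj, ?_, hoff, hout, ?_⟩
    · intro h' u c'
      obtain ⟨g1, g2, g3⟩ := hans h' u c'
      rcases hs : sc r d h' u c' with u'' | b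
      · exact g1 _ hs
      · rcases b with _ | _
        · exact g2 hs
        · refine (g3 hs).trans ?_
          rw [h1]; rfl
    · intro u h2
      rw [Option.some.injEq] at h2
      exact pn_ne_sb (F.inj h2)
  · rcases b with _ | _
    · refine ⟨none, hinj, ?_, hoff, hout, fun u h => absurd h (by simp)⟩
      intro h' u c'
      obtain ⟨g1, g2, g3⟩ := hans h' u c'
      rcases hs : sc r d h' u c' with u'' | b
      · exact g1 _ hs
      · rcases b with _ | _
        · exact g2 hs
        · refine (g3 hs).trans ?_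
          rw [h1]; rfl
    · refine ⟨o, hinj, ?_, hoff, hout, fun u => F.he _⟩
      intro h' u c'
      obtain ⟨g1, g2, g3⟩ := hans h' u c'
      rcases hs : sc r d h' u c' with u'' | b
      · exact g1 _ hs
      · rcases b with _ | _
        · exact g2 hs
        · refine (g3 hs).trans ?_
          rw [h1]; rfl

section orbit

variable {St : Type} (qu : St → Option (𝒱 × Bool)) (nxt : St → 𝒱 → St)

/-- From the state `σ` on, for `T` steps, exactly the live exits are read. -/
def Live {r d : ℕ} (w : 𝒱 × Bool → 𝒱) (ι : Nd r (d + 1) → 𝒱) (h : Hb r (d + 1)) (σ : St)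
    (T : ℕ) : Prop :=
  (∀ p, p ≤ T → ∀ i e c, exitAt (fun u => ι (sb i e c u)) (h.2 (i, e, c)) (trc qu nxt w σ) p →
      e = sd h.1 i ∧ c = h.1 i) ∧
    ∀ i, ∃ p, p ≤ T ∧ exitAt (fun u => ι (sb i (sd h.1 i) (h.1 i) u))
      (h.2 (i, sd h.1 i, h.1 i)) (trc qu nxt w σ) p

variable {r d : ℕ} {W : Hb r (d + 1) → 𝒱 × Bool → 𝒱} {ι : Nd r (d + 1) → 𝒱} {o : Option 𝒱}

theorem live_of (F : Fam W ι o) (σ0 : St) {h : Hb r (d + 1)}
    (hV : Viol (W h) ι h (trc qu nxt (W h) σ0))
    (hn : ∀ i e c, ¬ Viol (W h) (fun u => ι (sb i e c u)) (h.2 (i, e, c))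
      (trc qu nxt (W h) σ0)) : ∃ σ T, Live qu nxt (W h) ι h σ T := by
  obtain ⟨κ0, t2, h1, h2, h3⟩ := comb (F.env h) hV hn
  have hs : ∀ p, trc qu nxt (W h) (run qu nxt (W h) σ0 κ0) p =
      trc qu nxt (W h) σ0 (κ0 + p) := by
    intro p
    rw [trc, trc, run_add]
  refine ⟨run qu nxt (W h) σ0 κ0, t2 - κ0, ?_, ?_⟩
  · intro p hp i e c hx
    refine h2 (κ0 + p) (by omega) (by omega) i e c ?_
    obtain ⟨u, c', h4, h5⟩ := hx
    rw [hs] at h4
    exact ⟨u, c', h4, h5⟩
  · intro i
    obtain ⟨τ, h4, h5, u, c', h6, h7⟩ := h3 i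
    refine ⟨τ - κ0, by omega, u, c', ?_, h7⟩
    rw [hs, Nat.add_sub_cancel' h4]
    exact h6

theorem nx_live (ω ω' : Fin (r + 1) → Bool) (i : Fin (r + 1)) (h1 : sd ω i = sd ω' i)
    (h2 : ω i = ω' i) : nx ω i (sd ω i) (ω i) = nx ω' i (sd ω i) (ω i) := by
  unfold nx
  simp only [if_true, h1, h2]

theorem live_unique (F : Fam W ι o) {ω ω' : Fin (r + 1) → Bool}
    {η : Fin (r + 1) × Bool × Bool → Hb r d} {σ : St} {T T' : ℕ}
    (h1 : Live qu nxt (W (ω, η)) ι (ω, η) σ T) (h2 : Live qu nxt (W (ω', η)) ι (ω', η) σ T')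
    (hT : T ≤ T') : ω = ω' := by
  have hrun : ∀ p, p ≤ T → run qu nxt (W (ω, η)) σ p = run qu nxt (W (ω', η)) σ p := by
    intro p
    induction p with
    | zero => intro _; rfl
    | succ p ih =>
      intro hp
      have h3 := ih (by omega)
      rw [run_succ, run_succ, ← h3]
      rw [stp, stp]
      rcases hq : qu (run qu nxt (W (ω, η)) σ p) with _ | v
      · rfl
      · show nxt _ (W (ω, η) v) = nxt _ (W (ω', η) v)
        refine congrArg _ ?_
        by_cases hr : ∃ z, v.1 = ι z
        · obtain ⟨z, hz⟩ := hr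
          have hv' : v = (ι z, v.2) := Prod.ext hz rfl
          rw [hv', F.ans, F.ans]
          rcases nd_cases z with ⟨i', e', rfl⟩ | ⟨i', e', c', u', rfl⟩
          · rfl
          · rcases hs : sc r d (η (i', e', c')) u' v.2 with u'' | b
            · rw [sc_sb_inl (h := ((ω, η) : Hb r (d + 1))) hs,
                sc_sb_inl (h := ((ω', η) : Hb r (d + 1))) hs]
            · rcases b with _ | _
              · rw [sc_sb_false (h := ((ω, η) : Hb r (d + 1))) hs,
                  sc_sb_false (h := ((ω', η) : Hb r (d + 1))) hs]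
              · rw [sc_sb_true (h := ((ω, η) : Hb r (d + 1))) hs,
                  sc_sb_true (h := ((ω', η) : Hb r (d + 1))) hs]
                have hq1 : trc qu nxt (W (ω, η)) σ p = some (ι (sb i' e' c' u'), v.2) := by
                  rw [trc, hq, ← hv']
                have hq2 : trc qu nxt (W (ω', η)) σ p = some (ι (sb i' e' c' u'), v.2) := by
                  rw [trc, ← h3, hq, ← hv']
                have h4 := h1.1 p (by omega) i' e' c' ⟨u', v.2, hq1, hs⟩
                have h5 := h2.1 p (by omega) i' e' c' ⟨u', v.2, hq2, hs⟩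
                obtain ⟨h6, h7⟩ := h4
                obtain ⟨h8, h9⟩ := h5
                change e' = sd ω i' at h6
                change c' = ω i' at h7
                change e' = sd ω' i' at h8
                change c' = ω' i' at h9
                refine congrArg (tg ι o _) ?_
                show xt d ω i' e' c' = xt d ω' i' e' c'
                unfold xt
                have h10 : nx ω i' e' c' = nx ω' i' e' c' := by
                  rw [h6, h7]
                  exact nx_live ω ω' i' (h6.symm.trans h8) (h7.symm.trans h9)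
                rw [h10]
        · push Not at hr
          exact F.off _ _ v hr
  funext i
  obtain ⟨p, hp, u, c, h3, h4⟩ := h1.2 i
  have h5 := h2.1 p (by omega) i (sd ω i) (ω i) ⟨u, c, ?_, h4⟩
  · exact h5.2
  · rw [trc, ← hrun p hp]
    exact h3

end orbit

section count

variable {St : Type} [Fintype St] (qu : St → Option (𝒱 × Bool)) (nxt : St → 𝒱 → St)

open Classical in
/-- The number of hidden bits with a violation. -/
theorem count_viol {r : ℕ} : ∀ (d : ℕ) (W : Hb r d → 𝒱 × Bool → 𝒱) (ι : Nd r d → 𝒱) (o : Option 𝒱)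
    (_ : Fam W ι o) (σ0 : St),
    (univ.filter fun h => Viol (W h) ι h (trc qu nxt (W h) σ0)).card * 2 ^ (r + 1) ≤
      nn r d * Fintype.card St * Fintype.card (Hb r d) := by
  intro d
  induction d with
  | zero =>
    intro W ι o F σ0
    rw [Finset.filter_false_of_mem (fun h _ => not_viol_zero)]
    simp
  | succ d ih =>
    intro W ι o F σ0
    set S := Fintype.card St with hS
    set M := Fintype.card (Hb r d) with hM
    have hMpos : 0 < M := Fintype.card_pos
    set K := Fintype.card (Hb r (d + 1)) with hK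
    have hKe : K = Fintype.card (Fin (r + 1) → Bool) *
        Fintype.card (Fin (r + 1) × Bool × Bool → Hb r d) := by
      rw [hK, ← Fintype.card_prod]
      exact Fintype.card_congr (Equiv.refl _)
    -- the violations in one sub-gadget
    have hsub : ∀ C : Fin (r + 1) × Bool × Bool,
        (univ.filter fun h : Hb r (d + 1) => Viol (W h) (fun u => ι (sb C.1 C.2.1 C.2.2 u))
          (h.2 C) (trc qu nxt (W h) σ0)).card * 2 ^ (r + 1) ≤ nn r d * S * K := by
      intro C
      have h1 : (univ.filter fun h : Hb r (d + 1) => Viol (W h)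
          (fun u => ι (sb C.1 C.2.1 C.2.2 u)) (h.2 C) (trc qu nxt (W h) σ0)).card =
          ∑ ω : Fin (r + 1) → Bool, (univ.filter fun η : Fin (r + 1) × Bool × Bool → Hb r d =>
            Viol (W (ω, η)) (fun u => ι (sb C.1 C.2.1 C.2.2 u)) (η C)
              (trc qu nxt (W (ω, η)) σ0)).card :=
        pair_count (A := Fin (r + 1) → Bool) (B := Fin (r + 1) × Bool × Bool → Hb r d)
          (fun h => Viol (W h) (fun u => ι (sb C.1 C.2.1 C.2.2 u)) (h.2 C)
            (trc qu nxt (W h) σ0))
      have h2 : ∀ ω : Fin (r + 1) → Bool,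
          (univ.filter fun η : Fin (r + 1) × Bool × Bool → Hb r d =>
            Viol (W (ω, η)) (fun u => ι (sb C.1 C.2.1 C.2.2 u)) (η C)
              (trc qu nxt (W (ω, η)) σ0)).card * M * 2 ^ (r + 1) ≤
          Fintype.card (Fin (r + 1) × Bool × Bool → Hb r d) * (nn r d * S * M) := by
        intro ω
        refine upd_count (I := Fin (r + 1) × Bool × Bool) (H := Hb r d)
          (fun η => Viol (W (ω, η)) (fun u => ι (sb C.1 C.2.1 C.2.2 u)) (η C)
              (trc qu nxt (W (ω, η)) σ0)) C (2 ^ (r + 1)) (nn r d * S * M) ?_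
        intro η
        obtain ⟨o', hF'⟩ := F.sub ω η C.1 C.2.1 C.2.2
        have h3 := ih _ _ _ hF' σ0
        refine le_trans (Nat.mul_le_mul_right _ (Finset.card_le_card ?_)) h3
        intro h' hh
        rw [Finset.mem_filter] at hh ⊢
        refine ⟨mem_univ _, ?_⟩
        have h4 := hh.2
        rw [Function.update_self] at h4
        exact h4
      have h5 : (univ.filter fun h : Hb r (d + 1) => Viol (W h)
          (fun u => ι (sb C.1 C.2.1 C.2.2 u)) (h.2 C) (trc qu nxt (W h) σ0)).card *
            2 ^ (r + 1) * M ≤ nn r d * S * K * M := by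
        rw [h1, Finset.sum_mul, Finset.sum_mul]
        calc ∑ ω : Fin (r + 1) → Bool,
              (univ.filter fun η : Fin (r + 1) × Bool × Bool → Hb r d =>
                Viol (W (ω, η)) (fun u => ι (sb C.1 C.2.1 C.2.2 u)) (η C)
                  (trc qu nxt (W (ω, η)) σ0)).card * 2 ^ (r + 1) * M
            ≤ ∑ _ω : Fin (r + 1) → Bool,
              Fintype.card (Fin (r + 1) × Bool × Bool → Hb r d) * (nn r d * S * M) := by
              refine Finset.sum_le_sum fun ω _ => ?_
              rw [Nat.mul_right_comm]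
              exact h2 ω
          _ = nn r d * S * K * M := by
              rw [Finset.sum_const, Finset.card_univ, smul_eq_mul, hKe]
              ring
      exact Nat.le_of_mul_le_mul_right h5 hMpos
    -- no violation in a sub-gadget
    have hmain : (univ.filter fun h : Hb r (d + 1) => Viol (W h) ι h (trc qu nxt (W h) σ0) ∧
        ∀ i e c, ¬ Viol (W h) (fun u => ι (sb i e c u)) (h.2 (i, e, c))
          (trc qu nxt (W h) σ0)).card ≤
        Fintype.card (Fin (r + 1) × Bool × Bool → Hb r d) * S := by
      have h1 := pair_count' (A := Fin (r + 1) → Bool)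
        (B := Fin (r + 1) × Bool × Bool → Hb r d)
        (fun h => Viol (W h) ι h (trc qu nxt (W h) σ0) ∧
          ∀ i e c, ¬ Viol (W h) (fun u => ι (sb i e c u)) (h.2 (i, e, c))
            (trc qu nxt (W h) σ0))
      refine le_trans (le_of_eq h1) ?_
      calc ∑ η : Fin (r + 1) × Bool × Bool → Hb r d,
            (univ.filter fun ω : Fin (r + 1) → Bool =>
              Viol (W (ω, η)) ι (ω, η) (trc qu nxt (W (ω, η)) σ0) ∧
              ∀ i e c, ¬ Viol (W (ω, η)) (fun u => ι (sb i e c u)) (η (i, e, c))
                (trc qu nxt (W (ω, η)) σ0)).card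
          ≤ ∑ _η : Fin (r + 1) × Bool × Bool → Hb r d, S := by
            refine Finset.sum_le_sum fun η _ => ?_
            have h2 : ∀ ω : Fin (r + 1) → Bool,
                (Viol (W (ω, η)) ι (ω, η) (trc qu nxt (W (ω, η)) σ0) ∧
                ∀ i e c, ¬ Viol (W (ω, η)) (fun u => ι (sb i e c u)) (η (i, e, c))
                  (trc qu nxt (W (ω, η)) σ0)) →
                ∃ σ T, Live qu nxt (W (ω, η)) ι (ω, η) σ T := by
              rintro ω ⟨h3, h4⟩
              exact live_of qu nxt F σ0 h3 h4
            rw [hS, ← Finset.card_univ (α := St)]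
            refine Finset.card_le_card_of_injOn
              (fun ω => if hω : ∃ σ T, Live qu nxt (W (ω, η)) ι (ω, η) σ T then hω.choose
                else σ0) (fun _ _ => mem_coe.2 (mem_univ _)) ?_
            intro ω hω ω' hω' heq
            have h5 := h2 ω (Finset.mem_filter.1 (Finset.mem_coe.1 hω)).2
            have h6 := h2 ω' (Finset.mem_filter.1 (Finset.mem_coe.1 hω')).2
            simp only [dif_pos h5, dif_pos h6] at heq
            obtain ⟨T, hT⟩ := h5.choose_spec
            obtain ⟨T', hT'⟩ := h6.choose_spec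
            rw [← heq] at hT'
            rcases le_total T T' with h7 | h7
            · exact live_unique qu nxt F hT hT' h7
            · exact (live_unique qu nxt F hT' hT h7).symm
        _ = _ := by rw [Finset.sum_const, Finset.card_univ, smul_eq_mul]
    have hcover : (univ.filter fun h : Hb r (d + 1) =>
        Viol (W h) ι h (trc qu nxt (W h) σ0)) ⊆
        (univ.biUnion fun C : Fin (r + 1) × Bool × Bool =>
          univ.filter fun h : Hb r (d + 1) => Viol (W h) (fun u => ι (sb C.1 C.2.1 C.2.2 u))
            (h.2 C) (trc qu nxt (W h) σ0)) ∪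
        (univ.filter fun h : Hb r (d + 1) => Viol (W h) ι h (trc qu nxt (W h) σ0) ∧
          ∀ i e c, ¬ Viol (W h) (fun u => ι (sb i e c u)) (h.2 (i, e, c))
            (trc qu nxt (W h) σ0)) := by
      intro h hh
      rw [Finset.mem_filter] at hh
      rw [Finset.mem_union, Finset.mem_biUnion, Finset.mem_filter]
      by_cases hc : ∃ i e c, Viol (W h) (fun u => ι (sb i e c u)) (h.2 (i, e, c))
          (trc qu nxt (W h) σ0)
      · obtain ⟨i, e, c, hc⟩ := hc
        exact Or.inl ⟨(i, e, c), mem_univ _, Finset.mem_filter.2 ⟨mem_univ _, hc⟩⟩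
      · push Not at hc
        exact Or.inr ⟨mem_univ _, hh.2, hc⟩
    have hcard : Fintype.card (Fin (r + 1) × Bool × Bool) = 4 * (r + 1) := by
      rw [Fintype.card_prod, Fintype.card_prod, Fintype.card_fin, Fintype.card_bool]
      ring
    calc (univ.filter fun h : Hb r (d + 1) =>
          Viol (W h) ι h (trc qu nxt (W h) σ0)).card * 2 ^ (r + 1)
        ≤ ((∑ C : Fin (r + 1) × Bool × Bool,
            (univ.filter fun h : Hb r (d + 1) => Viol (W h)
              (fun u => ι (sb C.1 C.2.1 C.2.2 u)) (h.2 C) (trc qu nxt (W h) σ0)).card) +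
          Fintype.card (Fin (r + 1) × Bool × Bool → Hb r d) * S) * 2 ^ (r + 1) := by
          refine Nat.mul_le_mul_right _ ?_
          refine (Finset.card_le_card hcover).trans ?_
          refine (Finset.card_union_le _ _).trans ?_
          exact Nat.add_le_add Finset.card_biUnion_le hmain
      _ = (∑ C : Fin (r + 1) × Bool × Bool,
            (univ.filter fun h : Hb r (d + 1) => Viol (W h)
              (fun u => ι (sb C.1 C.2.1 C.2.2 u)) (h.2 C) (trc qu nxt (W h) σ0)).card *
              2 ^ (r + 1)) + K * S := by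
          rw [add_mul, Finset.sum_mul]
          congr 1
          have h2 : Fintype.card (Fin (r + 1) → Bool) = 2 ^ (r + 1) := by simp
          rw [hKe, h2]
          ring
      _ ≤ (∑ _C : Fin (r + 1) × Bool × Bool, nn r d * S * K) + K * S :=
          Nat.add_le_add_right (Finset.sum_le_sum fun C _ => hsub C) _
      _ = nn r (d + 1) * S * K := by
          rw [Finset.sum_const, Finset.card_univ, smul_eq_mul, hcard]
          show _ = (4 * (r + 1) * nn r d + 1) * S * K
          ring

end count

end Pool.Agent.W994.TR
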