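import Pool.Agent.W994.TR.Lower

/-!
# The lower bound for trees
-/

set_option autoImplicit false

namespace Pool.Agent.W994.TR

open Finset
open Pool.Agent.W997.TS (DBP)
open Pool.Agent.W994.ST (Input Reach nReach Nd Hb nd nn AsymProp)

theorem exists_nm {k n : ℕ} {A : Type} [Fintype A] (hA : Fintype.card A = n) (s t : Fin k)
    (hst : s ≠ t) (hn : n + 3 ≤ k) : ∃ nm : A → Fin k, Function.Injective nm ∧
      (∀ v, nm v ≠ s) ∧ (∀ v, nm v ≠ t) := by
  classical
  have hc : Fintype.card {v : Fin k // v ≠ s ∧ v ≠ t} = k - 2 := by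
    rw [Fintype.card_subtype]
    have h1 : (univ.filter fun v : Fin k => v ≠ s ∧ v ≠ t) = (univ.erase s).erase t := by
      ext v
      simp [and_comm]
    rw [h1, Finset.card_erase_of_mem (Finset.mem_erase.2 ⟨hst.symm, mem_univ _⟩),
      Finset.card_erase_of_mem (mem_univ _), Finset.card_univ, Fintype.card_fin]
    omega
  have hle : Fintype.card A ≤ Fintype.card {v : Fin k // v ≠ s ∧ v ≠ t} := by
    rw [hA, hc]
    omega
  obtain ⟨f⟩ := Function.Embedding.nonempty_of_card_le hle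
  refine ⟨fun v => (f v).1, ?_, ?_, ?_⟩
  · intro a b h
    exact f.injective (Subtype.ext h)
  · intro v; exact (f v).2.1
  · intro v; exact (f v).2.2

/-- The parameters of the inputs. -/
abbrev Om (r D κ : ℕ) : Type := Bool × Hb r D × (Nd r D → Fin κ)

/-- Markov's inequality. -/
theorem markov {A : Type} [Fintype A] (ρ : A → ℕ) (B : ℝ) (hB : (∑ a, (ρ a : ℝ)) ≤ B)
    (T : ℝ) (P : A → Prop) [DecidablePred P] (hP : ∀ a, P a → T ≤ ρ a) :
    ((univ.filter P).card : ℝ) * T ≤ B := by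
  calc ((univ.filter P).card : ℝ) * T = ∑ _a ∈ univ.filter P, T := by
        rw [Finset.sum_const, nsmul_eq_mul]
    _ ≤ ∑ a ∈ univ.filter P, (ρ a : ℝ) :=
        Finset.sum_le_sum fun a ha => hP a (Finset.mem_filter.1 ha).2
    _ ≤ ∑ a, (ρ a : ℝ) :=
        Finset.sum_le_sum_of_subset_of_nonneg (Finset.filter_subset _ _)
          fun a _ _ => Nat.cast_nonneg _
    _ ≤ B := hB

open Classical in
/-- The lower bound with the parameters of the inputs as index set. -/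
theorem lower_core (hI : InstProp) {k κ r D : ℕ} (nm : Nd r D × Fin κ → Fin k) (s t : Fin k)
    (hinj : Function.Injective nm) (hs : ∀ v, nm v ≠ s) (ht : ∀ v, nm v ≠ t) (hst : s ≠ t)
    (hκ : 0 < κ) (P : DBP (Fin k × Bool) k) (ρ : Om r D κ → ℕ)
    (hρ : ∀ y τ m b, P.Run (wld nm s t y.1 y.2.1 y.2.2) τ m b → m ≤ ρ y)
    {θ θ' c : ℝ} (hk : 1 ≤ k)
    (havg : (∑ y, (ρ y : ℝ)) ≤ (k : ℝ) ^ θ * Fintype.card (Om r D κ))
    (hasym : (nn r D : ℝ) * (P.size + 1) / 2 ^ (r + 1) +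
      (P.size + 1) * (nd r D * (k : ℝ) ^ θ' / κ) ^ (D + 1) +
      nd r D * (k : ℝ) ^ θ' / κ ≤ 2 * (k : ℝ) ^ (-c)) :
    ((univ.filter fun y : Om r D κ => Right nm s t P y.1 y.2.1 y.2.2).card : ℝ) ≤
      (1 / 2 + (k : ℝ) ^ (-c) + (k : ℝ) ^ (θ - θ')) * Fintype.card (Om r D κ) := by
  set N2 := Fintype.card (Hb r D × (Nd r D → Fin κ)) with hN2
  have hcard : Fintype.card (Om r D κ) = 2 * N2 := by
    rw [Fintype.card_prod, Fintype.card_bool]
  have hk0 : (0 : ℝ) < k := by exact_mod_cast hk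
  have hκ' : (0 : ℝ) < κ := by exact_mod_cast hκ
  set T := ⌊(k : ℝ) ^ θ'⌋₊ with hT
  have hfl : (T : ℝ) ≤ (k : ℝ) ^ θ' := Nat.floor_le (Real.rpow_nonneg (Nat.cast_nonneg _) _)
  have hfl' : (k : ℝ) ^ θ' ≤ (T : ℝ) + 1 := (Nat.lt_floor_add_one _).le
  have hboth := count_both nm s t P hI hinj hs ht hst T hκ
  have hright := count_right nm s t P
  set both := (univ.filter fun y : Hb r D × (Nd r D → Fin κ) =>
    Right nm s t P true y.1 y.2 ∧ Right nm s t P false y.1 y.2) with hbothdef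
  set few := (univ.filter fun y : Hb r D × (Nd r D → Fin κ) =>
    (Right nm s t P true y.1 y.2 ∧ Right nm s t P false y.1 y.2) ∧
      ∀ τ m b, P.Run (wld nm s t false y.1 y.2) τ m b → m ≤ T) with hfewdef
  set many := (univ.filter fun y : Hb r D × (Nd r D → Fin κ) => T + 1 ≤ ρ (false, y.1, y.2))
    with hmany
  have hsub : both ⊆ few ∪ many := by
    intro y hy
    rw [hbothdef, Finset.mem_filter] at hy
    rw [Finset.mem_union, hfewdef, hmany, Finset.mem_filter, Finset.mem_filter]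
    by_cases hc : ∀ τ m b, P.Run (wld nm s t false y.1 y.2) τ m b → m ≤ T
    · exact Or.inl ⟨mem_univ _, hy.2, hc⟩
    · push Not at hc
      obtain ⟨τ, m, b, h1, h2⟩ := hc
      exact Or.inr ⟨mem_univ _, le_trans h2 (hρ (false, y.1, y.2) τ m b h1)⟩
  have hbothle : (both.card : ℝ) ≤ few.card + many.card := by
    exact_mod_cast (Finset.card_le_card hsub).trans (Finset.card_union_le _ _)
  have hfew : (few.card : ℝ) ≤ 2 * (k : ℝ) ^ (-c) * N2 := by
    refine hboth.trans (mul_le_mul_of_nonneg_right ?_ (Nat.cast_nonneg _))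
    refine le_trans ?_ hasym
    gcongr
  have hmanyb : (many.card : ℝ) ≤ 2 * (k : ℝ) ^ (θ - θ') * N2 := by
    have h1 : (∑ y : Hb r D × (Nd r D → Fin κ), ((ρ (false, y.1, y.2) : ℕ) : ℝ)) ≤
        (k : ℝ) ^ θ * (2 * N2) := by
      rw [hcard] at havg
      push_cast at havg
      refine le_trans ?_ havg
      have h5 : (∑ y : Om r D κ, (ρ y : ℝ)) =
          ∑ z : Bool, ∑ y : Hb r D × (Nd r D → Fin κ), (ρ (z, y) : ℝ) :=
        Fintype.sum_prod_type _
      rw [h5, Fintype.sum_bool]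
      exact le_add_of_nonneg_left (Finset.sum_nonneg fun y _ => Nat.cast_nonneg _)
    have h2 := markov (fun y : Hb r D × (Nd r D → Fin κ) => ρ (false, y.1, y.2)) _ h1
      ((k : ℝ) ^ θ') (fun y => T + 1 ≤ ρ (false, y.1, y.2)) (fun y hy => hfl'.trans (by
        exact_mod_cast hy))
    have h3 : (0 : ℝ) < (k : ℝ) ^ θ' := Real.rpow_pos_of_pos hk0 _
    rw [Real.rpow_sub hk0]
    have h4 : (many.card : ℝ) ≤ (k : ℝ) ^ θ * (2 * N2) / (k : ℝ) ^ θ' := (le_div_iff₀ h3).2 h2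
    refine h4.trans (le_of_eq ?_)
    ring
  have h2 : ((univ.filter fun y : Om r D κ => Right nm s t P y.1 y.2.1 y.2.2).card : ℝ) ≤
      N2 + (both.card : ℝ) := by
    exact_mod_cast hright
  rw [hcard]
  push_cast
  nlinarith [h2, hbothle, hfew, hmanyb]

/-- The final choice of the constant. -/
theorem const_choice {c' g : ℝ} (hc' : 0 < c') (hg : 0 < g) : ∃ c : ℝ, 0 < c ∧ c ≤ c' ∧
    ∃ k₀ : ℕ, ∀ k : ℕ, k₀ ≤ k → (k : ℝ) ^ (-c') + (k : ℝ) ^ (-g) ≤ (k : ℝ) ^ (-c) := by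
  set c := min c' g / 2 with hc
  have hcpos : 0 < c := by positivity
  have h1 : 2 * c ≤ c' := by rw [hc]; linarith [min_le_left c' g]
  have h2 : 2 * c ≤ g := by rw [hc]; linarith [min_le_right c' g]
  refine ⟨c, hcpos, by linarith, ⌈(2 : ℝ) ^ (1 / c)⌉₊ + 1, fun k hk => ?_⟩
  have hk1 : (2 : ℝ) ^ (1 / c) ≤ k := by
    have h3 : (⌈(2 : ℝ) ^ (1 / c)⌉₊ : ℝ) ≤ k := by exact_mod_cast (by omega)
    exact (Nat.le_ceil _).trans h3
  have hkone : (1 : ℝ) ≤ k := by exact_mod_cast (by omega : 1 ≤ k)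
  have hk0 : (0 : ℝ) < k := by linarith
  have h3 : (2 : ℝ) ≤ (k : ℝ) ^ c := by
    calc (2 : ℝ) = ((2 : ℝ) ^ (1 / c)) ^ c := by
          rw [← Real.rpow_mul (by norm_num), one_div, inv_mul_cancel₀ hcpos.ne', Real.rpow_one]
      _ ≤ (k : ℝ) ^ c := Real.rpow_le_rpow (by positivity) hk1 hcpos.le
  have h4 : (k : ℝ) ^ (-c') ≤ (k : ℝ) ^ (-(2 * c)) :=
    Real.rpow_le_rpow_of_exponent_le hkone (by linarith)
  have h5 : (k : ℝ) ^ (-g) ≤ (k : ℝ) ^ (-(2 * c)) :=
    Real.rpow_le_rpow_of_exponent_le hkone (by linarith)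
  have h6 : (k : ℝ) ^ (-(2 * c)) = (k : ℝ) ^ (-c) * (k : ℝ) ^ (-c) := by
    rw [← Real.rpow_add hk0]; congr 1; ring
  have h7 : (k : ℝ) ^ (-c) ≤ 1 / 2 := by
    rw [Real.rpow_neg hk0.le, ← one_div]
    exact one_div_le_one_div_of_le (by norm_num) h3
  have h8 : (0 : ℝ) < (k : ℝ) ^ (-c) := Real.rpow_pos_of_pos hk0 _
  nlinarith

open Classical in
theorem lower (hA : AsymProp) (hI : InstProp) : ∀ θ δ : ℝ, θ < 1 → 0 < δ → ∃ c : ℝ, 0 < c ∧
    ∃ k₀ : ℕ, ∀ k : ℕ, k₀ ≤ k → ∀ s t : Fin k, s ≠ t →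
      ∃ (N : ℕ) (X : Fin N → Input k), 0 < N ∧
      (∀ i, TreeFrom (X i) s ∧ (nReach (X i) s : ℝ) ≤ (k : ℝ) ^ δ) ∧
      ∀ (P : DBP (Fin k × Bool) k) (ρ : Fin N → ℕ),
        (∀ i τ m b, P.Run (X i) τ m b → m ≤ ρ i) →
        (∑ i, (ρ i : ℝ)) ≤ (k : ℝ) ^ θ * N →
        Real.logb 2 P.size < c * Real.logb 2 k ^ 2 / Real.logb 2 (Real.logb 2 k) →
        ((univ.filter fun i => ∃ τ m, P.Run (X i) τ m
          (decide (Reach (X i) s t))).card : ℝ) ≤ (1 / 2 + (k : ℝ) ^ (-c)) * N := by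
  intro θ δ hθ hδ
  set θ' := (1 + θ) / 2 with hθ'
  obtain ⟨c', hc', k₁, hk₁⟩ := hA θ' δ (by rw [hθ']; linarith) hδ
  obtain ⟨c, hc, hcc', k₂, hk₂⟩ := const_choice hc' (g := θ' - θ) (by rw [hθ']; linarith)
  refine ⟨c, hc, max (max k₁ k₂) 4, fun k hk s t hst => ?_⟩
  have hk1 : k₁ ≤ k := le_trans (le_max_left _ _) (le_trans (le_max_left _ _) hk)
  have hk2 : k₂ ≤ k := le_trans (le_max_right _ _) (le_trans (le_max_left _ _) hk)
  have hk4 : 4 ≤ k := le_trans (le_max_right _ _) hk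
  obtain ⟨r, D, κ, hκ, hkn, hreach, hmain⟩ := hk₁ k hk1
  obtain ⟨nm, hinj, hs, ht⟩ := exists_nm (A := Nd r D × Fin κ)
    (n := nd r D * κ) (by rw [Fintype.card_prod, Pool.Agent.W565.ST.Inst.card_Nd,
      Fintype.card_fin]) s t hst hkn
  obtain ⟨hnr, -, -, -, -, -, htree⟩ := hI k κ r D nm s t hinj hs ht hst
  have : Nonempty (Nd r D → Fin κ) := ⟨fun _ => ⟨0, hκ⟩⟩
  set e := Fintype.equivFin (Om r D κ) with he
  refine ⟨Fintype.card (Om r D κ), fun i => wld nm s t (e.symm i).1 (e.symm i).2.1 (e.symm i).2.2,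
    Fintype.card_pos, ?_, ?_⟩
  · intro i
    refine ⟨htree _ _ _, le_trans ?_ hreach⟩
    have h1 := hnr (e.symm i).1 (e.symm i).2.1 (e.symm i).2.2
    have h2 : nReach (wld nm s t (e.symm i).1 (e.symm i).2.1 (e.symm i).2.2) s ≤ nd r D + 3 := by
      omega
    exact_mod_cast h2
  · intro P ρ hρ havg hsize
    have hSpos : 0 < P.size := Fintype.card_pos_iff.2 ⟨P.start⟩
    have hlog : 0 ≤ Real.logb 2 k ^ 2 / Real.logb 2 (Real.logb 2 k) := by
      refine div_nonneg (sq_nonneg _) (Real.logb_nonneg (by norm_num) ?_)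
      rw [Real.le_logb_iff_rpow_le (by norm_num) (by exact_mod_cast (by omega))]
      rw [Real.rpow_one]
      exact_mod_cast (by omega : 2 ≤ k)
    have hsize' : Real.logb 2 P.size <
        c' * Real.logb 2 k ^ 2 / Real.logb 2 (Real.logb 2 k) := by
      refine lt_of_lt_of_le hsize ?_
      rw [mul_div_assoc, mul_div_assoc]
      exact mul_le_mul_of_nonneg_right hcc' hlog
    have hasym := hmain P.size hSpos hsize'
    have havg' : (∑ y : Om r D κ, ((ρ (e y) : ℕ) : ℝ)) ≤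
        (k : ℝ) ^ θ * Fintype.card (Om r D κ) := by
      refine le_trans (le_of_eq ?_) havg
      exact Equiv.sum_comp e (fun i => (ρ i : ℝ))
    have hcore := lower_core hI nm s t hinj hs ht hst hκ P (fun y => ρ (e y))
      (fun y τ m b h => hρ (e y) τ m b (by
        simp only [Equiv.symm_apply_apply]
        exact h)) (by omega) havg' hasym
    have heq : (univ.filter fun i : Fin (Fintype.card (Om r D κ)) => ∃ τ m,
        P.Run (wld nm s t (e.symm i).1 (e.symm i).2.1 (e.symm i).2.2) τ m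
          (decide (Reach (wld nm s t (e.symm i).1 (e.symm i).2.1 (e.symm i).2.2) s t))).card =
        (univ.filter fun y : Om r D κ => Right nm s t P y.1 y.2.1 y.2.2).card := by
      refine Finset.card_bij' (fun i _ => e.symm i) (fun y _ => e y) ?_ ?_ ?_ ?_
      · intro i hi
        exact Finset.mem_filter.2 ⟨mem_univ _, (Finset.mem_filter.1 hi).2⟩
      · intro y hy
        refine Finset.mem_filter.2 ⟨mem_univ _, ?_⟩
        have h1 := (Finset.mem_filter.1 hy).2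
        simp only [Equiv.symm_apply_apply]
        exact h1
      · intro i _; exact e.apply_symm_apply i
      · intro y _; exact e.symm_apply_apply y
    rw [heq]
    refine hcore.trans ?_
    have h9 := hk₂ k hk2
    have h10 : (k : ℝ) ^ (θ - θ') = (k : ℝ) ^ (-(θ' - θ)) := by congr 1; ring
    rw [h10]
    refine mul_le_mul_of_nonneg_right ?_ (Nat.cast_nonneg _)
    linarith

end Pool.Agent.W994.TR
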