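import Pool.Agent.W994.TR.Count
import Pool.Agent.W994.ST.Lower

/-!
# The lower bound for trees: assembly
-/

set_option autoImplicit false

namespace Pool.Agent.W994.TR

open Finset
open Pool.Agent.W997.TS (DBP)
open Pool.Agent.W994.ST (Input Reach nReach ann touch held stp run trc Nd Hb nd nn sd entry sb pn FT
  pair_count pair_count' pqu pnx trc_path path_det path_congr rank_lt FT_of_held card_image_inst)

section pairs

variable {k κ r D : ℕ} (nm : Nd r D × Fin κ → Fin k) (s t : Fin k)
  (P : DBP (Fin k × Bool) k)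

/-- The names are bad from the state `σ` on: `m` unannounced first queries of rank `< T`. -/
def BadN (m T : ℕ) (σ : Option P.State) (h : Hb r D) (a : Nd r D → Fin κ) : Prop :=
  open Classical in
  ∃ z : Fin m → Nd r D, Function.Injective z ∧ ∀ j, ∃ p,
    FT (wld nm s t false h a) (trc (pqu P) (pnx P) (wld nm s t false h a) σ)
      (nm (z j, a (z j))) p ∧
    ((range p).image (trc (pqu P) (pnx P) (wld nm s t false h a) σ)).card < T

/-- The program is right on the input with the parameters `z`, `h`, `a`. -/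
def Right (z : Bool) (h : Hb r D) (a : Nd r D → Fin κ) : Prop :=
  open Classical in
  ∃ τ m, P.Run (wld nm s t z h a) τ m (decide (Reach (wld nm s t z h a) s t))

theorem trichotomy (hI : InstProp) (hinj : Function.Injective nm) (hs : ∀ v, nm v ≠ s)
    (ht : ∀ v, nm v ≠ t) (hst : s ≠ t) {T : ℕ} (h : Hb r D)
    (a : Nd r D → Fin κ)
    (hT : ∀ τ m b, P.Run (wld nm s t false h a) τ m b → m ≤ T)
    (h1 : Right nm s t P true h a) (h2 : Right nm s t P false h a) :
    Viol (wld nm s t false h a) (fun u => nm (u, a u)) h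
        (trc (pqu P) (pnx P) (wld nm s t false h a) (some P.start)) ∨
      (∃ σ, BadN nm s t P (D + 1) T σ h a) ∨ BadN nm s t P 1 T (some P.start) h a := by
  classical
  obtain ⟨-, hr1, hr0, hdiff, -, -, -⟩ :=
    hI k κ r D nm s t hinj hs ht hst
  obtain ⟨τ1, m1, l1, hp1, -, -⟩ := h1
  obtain ⟨τ0, m0, hrun0⟩ := h2
  have hm0 := hT _ _ _ hrun0
  obtain ⟨l0, hp0, -, hm⟩ := hrun0
  rw [decide_eq_true (hr1 h a)] at hp1
  rw [decide_eq_false (hr0 h a)] at hp0
  -- the exit is read
  have hexit : ∃ t2, exitAt (fun u => nm (u, a u)) h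
      (trc (pqu P) (pnx P) (wld nm s t false h a) (some P.start)) t2 := by
    by_contra hc
    push Not at hc
    have hsame : ∀ q' ∈ P.start :: l0, wld nm s t false h a (P.query q') =
        wld nm s t true h a (P.query q') := by
      intro q' hq'
      refine (hdiff h a (P.query q') ?_).symm
      intro u c hv hsc
      obtain ⟨p, hp, hpe⟩ := List.mem_iff_getElem.1 hq'
      refine hc p ⟨u, c, ?_, hsc⟩
      rw [trc_path P hp0 p, List.getElem?_eq_getElem hp, hpe, Option.map_some, hv]
    exact absurd (path_det P (path_congr P hp0 hsame) hp1) (by simp)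
  obtain ⟨t2, ht2⟩ := hexit
  have hrank : ∀ (t' p : ℕ) (b : Fin k),
      FT (wld nm s t false h a) (trc (pqu P) (pnx P) (wld nm s t false h a)
        (run (pqu P) (pnx P) (wld nm s t false h a) (some P.start) t')) b p →
      ((range p).image (trc (pqu P) (pnx P) (wld nm s t false h a)
        (run (pqu P) (pnx P) (wld nm s t false h a) (some P.start) t'))).card < T := by
    intro t' p b hF
    have h3 := rank_lt P hp0 hF
    have h4 : ((P.start :: l0).map P.query).toFinset.card ≤ T := by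
      refine le_trans (le_of_eq ?_) hm0
      rw [← hm]
    refine lt_of_lt_of_le (lt_of_le_of_lt (le_of_eq ?_) h3) h4
    congr!
  by_cases hA3 : BadN nm s t P 1 T (some P.start) h a
  · exact Or.inr (Or.inr hA3)
  by_cases hA2 : ∃ σ, BadN nm s t P (D + 1) T σ h a
  · exact Or.inr (Or.inl hA2)
  refine Or.inl ⟨0, t2, Nat.zero_le _, ?_, ?_, ht2⟩
  · intro u hu
    obtain ⟨p, hp⟩ := FT_of_held _ _ hu
    refine hA3 ⟨fun _ => u, fun i j _ => Subsingleton.elim i j, fun _ => ⟨p, hp, ?_⟩⟩
    have h5 := hrank 0 p _ hp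
    refine lt_of_le_of_lt (le_of_eq ?_) h5
    congr!
  · intro t' _ _ F hF
    by_contra hcon
    push Not at hcon
    refine hA2 ⟨run (pqu P) (pnx P) (wld nm s t false h a) (some P.start) t', ?_⟩
    obtain ⟨F', hF', hcF⟩ := Finset.exists_subset_card_eq (Nat.succ_le_of_lt hcon)
    refine ⟨fun j => (F'.equivFinOfCardEq hcF).symm j, ?_, ?_⟩
    · intro i j hij
      exact (F'.equivFinOfCardEq hcF).symm.injective (Subtype.ext hij)
    · intro j
      obtain ⟨p, hp⟩ := FT_of_held _ _ (hF _ (hF' ((F'.equivFinOfCardEq hcF).symm j).2))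
      refine ⟨p, hp, ?_⟩
      have h5 := hrank t' p _ hp
      refine lt_of_le_of_lt (le_of_eq ?_) h5
      congr!

open Classical in
theorem count_bad (hI : InstProp) (hinj : Function.Injective nm) (hs : ∀ v, nm v ≠ s)
    (ht : ∀ v, nm v ≠ t) (hst : s ≠ t) (m T : ℕ)
    (σ : Option P.State) :
    (univ.filter fun y : Hb r D × (Nd r D → Fin κ) =>
      BadN nm s t P m T σ y.1 y.2).card * κ ^ m ≤
      (nd r D * T) ^ m * Fintype.card (Hb r D × (Nd r D → Fin κ)) := by
  obtain ⟨-, -, -, -, -, hX, -⟩ :=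
    hI k κ r D nm s t hinj hs ht hst
  rw [pair_count, Finset.sum_mul]
  calc ∑ h : Hb r D, (univ.filter fun a : Nd r D → Fin κ =>
        BadN nm s t P m T σ h a).card * κ ^ m
      ≤ ∑ _h : Hb r D, (nd r D * T) ^ m * κ ^ nd r D := by
        refine Finset.sum_le_sum fun h _ => ?_
        have h1 := Pool.Agent.W515.ST.main (Fin k) (Option P.State) (Nd r D) κ (pqu P) (pnx P)
          nm hinj (fun a => wld nm s t false h a) (fun a a' v => hX false h a a' v) σ m T
        rw [Pool.Agent.W565.ST.Inst.card_Nd] at h1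
        refine le_trans (Nat.mul_le_mul_right _ (Finset.card_le_card fun a ha =>
          (@Finset.mem_filter _ _ (_) _ _).2 ⟨@Finset.mem_univ _ (_) _, ?_⟩)) h1
        obtain ⟨z, hz, hj⟩ := ((@Finset.mem_filter _ _ (_) _ _).1 ha).2
        refine ⟨z, hz, fun j => ?_⟩
        obtain ⟨p, hp1, hp2⟩ := hj j
        exact ⟨p, hp1, lt_of_le_of_lt (card_image_inst _ _ _ _).le hp2⟩
    _ = _ := by
        rw [Finset.sum_const, Finset.card_univ, smul_eq_mul, Fintype.card_prod, Fintype.card_fun,
          Fintype.card_fin, Pool.Agent.W565.ST.Inst.card_Nd]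
        ring

open Classical in
theorem count_viol' (hI : InstProp) (hinj : Function.Injective nm) (hs : ∀ v, nm v ≠ s)
    (ht : ∀ v, nm v ≠ t) (hst : s ≠ t) :
    (univ.filter fun y : Hb r D × (Nd r D → Fin κ) =>
      Viol (wld nm s t false y.1 y.2) (fun u => nm (u, y.2 u)) y.1
        (trc (pqu P) (pnx P) (wld nm s t false y.1 y.2) (some P.start))).card *
        2 ^ (r + 1) ≤
      nn r D * (P.size + 1) * Fintype.card (Hb r D × (Nd r D → Fin κ)) := by
  obtain ⟨-, -, -, -, hFam, -, -⟩ :=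
    hI k κ r D nm s t hinj hs ht hst
  rw [pair_count', Finset.sum_mul]
  calc ∑ a : Nd r D → Fin κ, (univ.filter fun h : Hb r D =>
        Viol (wld nm s t false h a) (fun u => nm (u, a u)) h
        (trc (pqu P) (pnx P) (wld nm s t false h a) (some P.start))).card * 2 ^ (r + 1)
      ≤ ∑ _a : Nd r D → Fin κ, nn r D * (P.size + 1) * Fintype.card (Hb r D) := by
        refine Finset.sum_le_sum fun a _ => ?_
        have h1 := count_viol (pqu P) (pnx P) D _ _ _ (hFam false a) (some P.start)
        rw [Fintype.card_option] at h1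
        exact h1
    _ = _ := by
        rw [Finset.sum_const, Finset.card_univ, smul_eq_mul, Fintype.card_prod]
        ring

open Classical in
/-- The number of pairs on which the program is right for both values of `z`. -/
theorem count_both (hI : InstProp) (hinj : Function.Injective nm) (hs : ∀ v, nm v ≠ s)
    (ht : ∀ v, nm v ≠ t) (hst : s ≠ t) (T : ℕ) (hκ : 0 < κ) :
    ((univ.filter fun y : Hb r D × (Nd r D → Fin κ) =>
      (Right nm s t P true y.1 y.2 ∧ Right nm s t P false y.1 y.2) ∧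
      ∀ τ m b, P.Run (wld nm s t false y.1 y.2) τ m b → m ≤ T).card : ℝ) ≤
      ((nn r D : ℝ) * (P.size + 1) / 2 ^ (r + 1) +
        (P.size + 1) * (nd r D * (T : ℝ) / κ) ^ (D + 1) + nd r D * (T : ℝ) / κ) *
        Fintype.card (Hb r D × (Nd r D → Fin κ)) := by
  set N2 := Fintype.card (Hb r D × (Nd r D → Fin κ)) with hN2
  set V := (univ.filter fun y : Hb r D × (Nd r D → Fin κ) =>
      Viol (wld nm s t false y.1 y.2) (fun u => nm (u, y.2 u)) y.1
        (trc (pqu P) (pnx P) (wld nm s t false y.1 y.2) (some P.start))) with hV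
  set A2 := fun σ : Option P.State => (univ.filter fun y : Hb r D × (Nd r D → Fin κ) =>
      BadN nm s t P (D + 1) T σ y.1 y.2) with hA2
  set A3 := (univ.filter fun y : Hb r D × (Nd r D → Fin κ) =>
      BadN nm s t P 1 T (some P.start) y.1 y.2) with hA3
  have hcov : (univ.filter fun y : Hb r D × (Nd r D → Fin κ) =>
      (Right nm s t P true y.1 y.2 ∧ Right nm s t P false y.1 y.2) ∧
      ∀ τ m b, P.Run (wld nm s t false y.1 y.2) τ m b → m ≤ T) ⊆
      (V ∪ univ.biUnion A2) ∪ A3 := by
    intro y hy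
    rw [Finset.mem_filter] at hy
    rw [Finset.mem_union, Finset.mem_union, Finset.mem_biUnion]
    rcases trichotomy nm s t P hI hinj hs ht hst y.1 y.2
      hy.2.2 hy.2.1.1 hy.2.1.2 with h | ⟨σ, h⟩ | h
    · exact Or.inl (Or.inl (Finset.mem_filter.2 ⟨mem_univ _, h⟩))
    · exact Or.inl (Or.inr ⟨σ, mem_univ _, Finset.mem_filter.2 ⟨mem_univ _, h⟩⟩)
    · exact Or.inr (Finset.mem_filter.2 ⟨mem_univ _, h⟩)
  have h1 : ((univ.filter fun y : Hb r D × (Nd r D → Fin κ) =>
      (Right nm s t P true y.1 y.2 ∧ Right nm s t P false y.1 y.2) ∧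
      ∀ τ m b, P.Run (wld nm s t false y.1 y.2) τ m b → m ≤ T).card : ℝ) ≤
      V.card + (∑ σ, ((A2 σ).card : ℝ)) + A3.card := by
    have h2 := (Finset.card_le_card hcov).trans ((Finset.card_union_le _ _).trans
      (Nat.add_le_add_right ((Finset.card_union_le _ _).trans
        (Nat.add_le_add_left Finset.card_biUnion_le _)) _))
    exact_mod_cast h2
  have hκ' : (0 : ℝ) < κ := by exact_mod_cast hκ
  have hVb : (V.card : ℝ) ≤ (nn r D : ℝ) * (P.size + 1) / 2 ^ (r + 1) * N2 := by
    have h2 : ((V.card * 2 ^ (r + 1) : ℕ) : ℝ) ≤ ((nn r D * (P.size + 1) * N2 : ℕ) : ℝ) :=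
      Nat.cast_le.2 (count_viol' nm s t P hI hinj hs ht hst)
    push_cast at h2
    have h3 : (0 : ℝ) < 2 ^ (r + 1) := by positivity
    rw [div_mul_eq_mul_div, le_div_iff₀ h3]
    exact h2
  have hA2b : ∀ σ, ((A2 σ).card : ℝ) ≤ (nd r D * (T : ℝ) / κ) ^ (D + 1) * N2 := by
    intro σ
    have h2 : (((A2 σ).card * κ ^ (D + 1) : ℕ) : ℝ) ≤ (((nd r D * T) ^ (D + 1) * N2 : ℕ) : ℝ) :=
      Nat.cast_le.2 (count_bad nm s t P hI hinj hs ht hst (D + 1) T σ)
    push_cast at h2
    rw [div_pow, div_mul_eq_mul_div, le_div_iff₀ (pow_pos hκ' _)]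
    exact h2
  have hA3b : (A3.card : ℝ) ≤ nd r D * (T : ℝ) / κ * N2 := by
    have h2 : ((A3.card * κ ^ 1 : ℕ) : ℝ) ≤ (((nd r D * T) ^ 1 * N2 : ℕ) : ℝ) :=
      Nat.cast_le.2 (count_bad nm s t P hI hinj hs ht hst 1 T (some P.start))
    push_cast at h2
    rw [pow_one, pow_one] at h2
    rw [div_mul_eq_mul_div, le_div_iff₀ hκ']
    exact h2
  have hsum : ∑ σ, ((A2 σ).card : ℝ) ≤
      (P.size + 1) * (nd r D * (T : ℝ) / κ) ^ (D + 1) * N2 := by
    refine (Finset.sum_le_sum fun σ _ => hA2b σ).trans ?_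
    rw [Finset.sum_const, Finset.card_univ, Fintype.card_option, nsmul_eq_mul]
    push_cast
    rw [← mul_assoc]
    exact le_rfl
  calc _ ≤ _ := h1
    _ ≤ _ := add_le_add (add_le_add hVb hsum) hA3b
    _ = _ := by ring

open Classical in
/-- The number of inputs on which the program is right. -/
theorem count_right : (univ.filter fun y : Bool × Hb r D × (Nd r D → Fin κ) =>
      Right nm s t P y.1 y.2.1 y.2.2).card ≤
    Fintype.card (Hb r D × (Nd r D → Fin κ)) +
      (univ.filter fun y : Hb r D × (Nd r D → Fin κ) =>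
        Right nm s t P true y.1 y.2 ∧ Right nm s t P false y.1 y.2).card := by
  rw [pair_count, Fintype.sum_bool]
  rw [← Finset.card_union_add_card_inter, ← Finset.filter_and]
  refine Nat.add_le_add ?_ (le_of_eq rfl)
  exact (Finset.card_le_univ _)

end pairs

end Pool.Agent.W994.TR
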